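import Pool.Agent.N798.T.Stm
import Pool.Agent.Y901.VK.Bc

set_option autoImplicit false

/-! Project T (helper798), task BCI (helper364): from mean squares to almost every parameter. -/

namespace Pool.Agent.N364.T

open Finset MeasureTheory Filter Topology
open scoped ENNReal

lemma bci_enorm (x : ℂ) : ‖x‖ₑ ^ 2 = ENNReal.ofReal (‖x‖ ^ 2) := by
  rw [← ofReal_norm, ← ENNReal.ofReal_pow (norm_nonneg _)]

lemma bci_add (x y : ℂ) : ‖x + y‖ₑ ^ 2 ≤ 2 * ‖x‖ₑ ^ 2 + 2 * ‖y‖ₑ ^ 2 := by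
  have h2 : (2 : ℝ≥0∞) = ENNReal.ofReal 2 := by simp
  rw [bci_enorm, bci_enorm, bci_enorm, h2, ← ENNReal.ofReal_mul (by norm_num),
    ← ENNReal.ofReal_mul (by norm_num), ← ENNReal.ofReal_add (by positivity) (by positivity)]
  refine ENNReal.ofReal_le_ofReal ?_
  have h3 := norm_add_le x y
  have h4 : ‖x + y‖ ^ 2 ≤ (‖x‖ + ‖y‖) ^ 2 := pow_le_pow_left₀ (norm_nonneg _) h3 2
  nlinarith [sq_nonneg (‖x‖ - ‖y‖)]

lemma bci_split (f : ℕ → ℂ) {M N : ℕ} (hMN : M ≤ N) :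
    ∑ n ∈ Icc 1 N, f n = ∑ n ∈ Icc 1 M, f n + ∑ n ∈ Ioc M N, f n := by
  have h : ∀ k : ℕ, Icc 1 k = Ioc 0 k := by
    intro k
    ext n
    rw [mem_Icc, mem_Ioc]
    omega
  rw [h, h]
  exact (Finset.sum_Ioc_consecutive f (Nat.zero_le _) hMN).symm

lemma bci_exp (K : ℕ) : (1 + 1 / (10 * ((K : ℝ) + 1))) ^ K ≤ 10 / 9 := by
  have h1 : 0 < 10 * ((K : ℝ) + 1) := by positivity
  have h2 : 1 + 1 / (10 * ((K : ℝ) + 1)) ≤ Real.exp (1 / (10 * ((K : ℝ) + 1))) := by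
    have := Real.add_one_le_exp (1 / (10 * ((K : ℝ) + 1)))
    linarith
  calc (1 + 1 / (10 * ((K : ℝ) + 1))) ^ K ≤ Real.exp (1 / (10 * ((K : ℝ) + 1))) ^ K :=
        pow_le_pow_left₀ (by positivity) h2 K
    _ = Real.exp (K * (1 / (10 * ((K : ℝ) + 1)))) := (Real.exp_nat_mul _ _).symm
    _ ≤ Real.exp (1 / 10) := by
        refine Real.exp_le_exp.2 ?_
        rw [mul_one_div, div_le_div_iff₀ h1 (by norm_num)]
        linarith
    _ ≤ 10 / 9 := by
        have h3 := Real.one_sub_le_exp_neg (1 / 10)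
        rw [Real.exp_neg] at h3
        have h4 : 0 < Real.exp (1 / 10) := Real.exp_pos _
        rw [le_inv_comm₀ (by norm_num) h4] at h3
        calc Real.exp (1 / 10) ≤ (1 - 1 / 10)⁻¹ := h3
          _ = 10 / 9 := by norm_num

lemma bci_real (K N M : ℕ) (hM : M = (N + 1) / 2) (hN : 5 ≤ N) (hM2 : 2 ^ (10 * (K + 1)) ≤ M) :
    (M : ℝ) ^ 2 / Real.log M ^ K ≤ 2 / 5 * ((N : ℝ) ^ 2 / Real.log N ^ K) := by
  have hM0 : 0 < M := lt_of_lt_of_le (pow_pos two_pos _) hM2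
  have hMr : (0 : ℝ) < M := by exact_mod_cast hM0
  have hNr : (0 : ℝ) < N := by
    have : 0 < N := by omega
    exact_mod_cast this
  have h5 : 5 * M ≤ 3 * N := by omega
  have h5r : 5 * (M : ℝ) ≤ 3 * N := by exact_mod_cast h5
  have h2M : N ≤ 2 * M := by omega
  have h2Mr : (N : ℝ) ≤ 2 * M := by exact_mod_cast h2M
  have hMN : M ≤ N := by omega
  have hL2 : 0 < Real.log 2 := Real.log_pos (by norm_num)
  have hlM : 10 * ((K : ℝ) + 1) * Real.log 2 ≤ Real.log M := by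
    have h1 : ((2 : ℝ)) ^ (10 * (K + 1)) ≤ M := by exact_mod_cast hM2
    have h2 := Real.log_le_log (by positivity) h1
    rw [Real.log_pow] at h2
    push_cast at h2
    exact h2
  have hlM0 : 0 < Real.log M := lt_of_lt_of_le (by positivity) hlM
  have hlN : Real.log N ≤ (1 + 1 / (10 * ((K : ℝ) + 1))) * Real.log M := by
    have h1 := Real.log_le_log hNr h2Mr
    rw [Real.log_mul (by norm_num) hMr.ne'] at h1
    have h2 : Real.log 2 ≤ 1 / (10 * ((K : ℝ) + 1)) * Real.log M := by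
      rw [one_div, inv_mul_eq_div, le_div_iff₀ (by positivity)]
      linarith
    linarith
  have hlN0 : 0 < Real.log N := lt_of_lt_of_le hlM0 (Real.log_le_log hMr (by exact_mod_cast hMN))
  have hpow : Real.log N ^ K ≤ 10 / 9 * Real.log M ^ K := by
    calc Real.log N ^ K ≤ ((1 + 1 / (10 * ((K : ℝ) + 1))) * Real.log M) ^ K :=
          pow_le_pow_left₀ hlN0.le hlN K
      _ = (1 + 1 / (10 * ((K : ℝ) + 1))) ^ K * Real.log M ^ K := mul_pow _ _ _
      _ ≤ 10 / 9 * Real.log M ^ K := mul_le_mul_of_nonneg_right (bci_exp K) (by positivity)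
  have hsq : (M : ℝ) ^ 2 ≤ 9 / 25 * (N : ℝ) ^ 2 := by nlinarith
  rw [mul_div_assoc', div_le_div_iff₀ (by positivity) (by positivity)]
  calc (M : ℝ) ^ 2 * Real.log N ^ K ≤ (9 / 25 * (N : ℝ) ^ 2) * (10 / 9 * Real.log M ^ K) :=
        mul_le_mul hsq hpow (by positivity) (by positivity)
    _ = 2 / 5 * (N : ℝ) ^ 2 * Real.log M ^ K := by ring

/-- the mean squares of the whole sums -/
lemma bci_mean {Ω : Type} [MeasurableSpace Ω] {m : Measure Ω} [IsFiniteMeasure m] {g : Ω → ℕ → ℂ}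
    (hgm : ∀ n, Measurable fun ω => g ω n) (hg : ∀ ω n, ‖g ω n‖ ≤ 2) (K : ℕ) {D : ℝ} {N0 : ℕ}
    (hD : 0 ≤ D) (hN : ∀ N N' : ℕ, N0 ≤ N → N ≤ N' → N' ≤ 2 * N →
      ∫⁻ ω, ‖∑ n ∈ Ioc N N', g ω n‖ₑ ^ 2 ∂m ≤ ENNReal.ofReal (D * N ^ 2 / (Real.log N) ^ K)) :
    ∃ C : ℝ, 0 ≤ C ∧ ∀ N : ℕ, 2 ≤ N →
      ∫⁻ ω, ‖∑ n ∈ Icc 1 N, g ω n‖ₑ ^ 2 ∂m ≤ ENNReal.ofReal (C * N ^ 2 / (Real.log N) ^ K) := by
  obtain ⟨N2, hN2⟩ : ∃ N2 : ℕ, N2 = 2 * (N0 + 2 ^ (10 * (K + 1))) + 8 := ⟨_, rfl⟩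
  obtain ⟨μ, hμ⟩ : ∃ μ : ℝ, μ = m.real Set.univ := ⟨_, rfl⟩
  have hμ0 : 0 ≤ μ := by rw [hμ]; exact measureReal_nonneg
  have hmμ : m Set.univ = ENNReal.ofReal μ := by
    rw [hμ, ofReal_measureReal]
  have hlN2 : 0 ≤ Real.log N2 := Real.log_natCast_nonneg _
  refine ⟨4 * D + 4 * μ * Real.log N2 ^ K, by positivity, ?_⟩
  obtain ⟨C, hC⟩ : ∃ C : ℝ, C = 4 * D + 4 * μ * Real.log N2 ^ K := ⟨_, rfl⟩
  rw [← hC]
  have hCD : 4 * D ≤ C := by
    rw [hC]
    have : 0 ≤ 4 * μ * Real.log N2 ^ K := by positivity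
    linarith
  have hC0 : 0 ≤ C := by linarith
  have hSm : ∀ s : Finset ℕ, Measurable fun ω => ‖∑ n ∈ s, g ω n‖ₑ ^ 2 := fun s =>
    Measurable.pow_const (Measurable.enorm (Finset.measurable_sum _ fun n _ => hgm n)) 2
  intro N
  induction N using Nat.strong_induction_on with
  | _ N ih =>
    intro hN2'
    have hNr : (2 : ℝ) ≤ N := by exact_mod_cast hN2'
    have hlN : 0 < Real.log N := Real.log_pos (by linarith)
    rcases le_or_gt N N2 with hle | hgt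
    · have hb : ∀ ω, ‖∑ n ∈ Icc 1 N, g ω n‖ₑ ^ 2 ≤ ENNReal.ofReal (4 * (N : ℝ) ^ 2) := by
        intro ω
        rw [bci_enorm]
        refine ENNReal.ofReal_le_ofReal ?_
        have h1 : ‖∑ n ∈ Icc 1 N, g ω n‖ ≤ 2 * N := by
          refine (norm_sum_le _ _).trans ?_
          calc ∑ n ∈ Icc 1 N, ‖g ω n‖ ≤ ∑ n ∈ Icc 1 N, (2 : ℝ) := sum_le_sum fun n _ => hg ω n
            _ = 2 * N := by
              rw [sum_const, Nat.card_Icc, nsmul_eq_mul, Nat.add_sub_cancel]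
              ring
        calc ‖∑ n ∈ Icc 1 N, g ω n‖ ^ 2 ≤ (2 * (N : ℝ)) ^ 2 :=
              pow_le_pow_left₀ (norm_nonneg _) h1 2
          _ = 4 * (N : ℝ) ^ 2 := by ring
      calc ∫⁻ ω, ‖∑ n ∈ Icc 1 N, g ω n‖ₑ ^ 2 ∂m ≤ ∫⁻ _, ENNReal.ofReal (4 * (N : ℝ) ^ 2) ∂m :=
            lintegral_mono hb
        _ = ENNReal.ofReal (4 * (N : ℝ) ^ 2) * m Set.univ := lintegral_const _
        _ = ENNReal.ofReal (4 * (N : ℝ) ^ 2 * μ) := by
            rw [hmμ, ← ENNReal.ofReal_mul (by positivity)]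
        _ ≤ ENNReal.ofReal (C * N ^ 2 / (Real.log N) ^ K) := by
            refine ENNReal.ofReal_le_ofReal ?_
            rw [le_div_iff₀ (by positivity)]
            have h1 : Real.log N ^ K ≤ Real.log N2 ^ K :=
              pow_le_pow_left₀ hlN.le (Real.log_le_log (by linarith) (by exact_mod_cast hle)) K
            have h2 : 4 * μ * Real.log N2 ^ K ≤ C := by
              rw [hC]
              linarith
            calc 4 * (N : ℝ) ^ 2 * μ * Real.log N ^ K = (N : ℝ) ^ 2 * (4 * μ * Real.log N ^ K) := by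
                  ring
              _ ≤ (N : ℝ) ^ 2 * (4 * μ * Real.log N2 ^ K) := by gcongr
              _ ≤ (N : ℝ) ^ 2 * C := by gcongr
              _ = C * N ^ 2 := by ring
    · obtain ⟨M, hM⟩ : ∃ M : ℕ, M = (N + 1) / 2 := ⟨_, rfl⟩
      have hpow : 0 < 2 ^ (10 * (K + 1)) := pow_pos two_pos _
      have hM1 : N0 + 2 ^ (10 * (K + 1)) ≤ M := by omega
      have hMN : M ≤ N := by omega
      have hlM : 0 < Real.log M := by
        refine Real.log_pos ?_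
        have : 1 < M := by omega
        exact_mod_cast this
      have hih := ih M (by omega) (by omega)
      have hbl := hN M N (by omega) hMN (by omega)
      calc ∫⁻ ω, ‖∑ n ∈ Icc 1 N, g ω n‖ₑ ^ 2 ∂m
          ≤ ∫⁻ ω, (2 * ‖∑ n ∈ Icc 1 M, g ω n‖ₑ ^ 2 + 2 * ‖∑ n ∈ Ioc M N, g ω n‖ₑ ^ 2) ∂m := by
            refine lintegral_mono fun ω => ?_
            rw [bci_split (g ω) hMN]
            exact bci_add _ _
        _ = 2 * ∫⁻ ω, ‖∑ n ∈ Icc 1 M, g ω n‖ₑ ^ 2 ∂m + 2 * ∫⁻ ω, ‖∑ n ∈ Ioc M N, g ω n‖ₑ ^ 2 ∂m := by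
            rw [lintegral_add_left ((hSm _).const_mul _), lintegral_const_mul _ (hSm _),
              lintegral_const_mul _ (hSm _)]
        _ ≤ 2 * ENNReal.ofReal (C * M ^ 2 / (Real.log M) ^ K) +
            2 * ENNReal.ofReal (D * M ^ 2 / (Real.log M) ^ K) := by gcongr
        _ = ENNReal.ofReal (2 * (C * M ^ 2 / (Real.log M) ^ K) +
            2 * (D * M ^ 2 / (Real.log M) ^ K)) := by
            have h2 : (2 : ℝ≥0∞) = ENNReal.ofReal 2 := by simp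
            rw [h2, ← ENNReal.ofReal_mul (by norm_num), ← ENNReal.ofReal_mul (by norm_num),
              ← ENNReal.ofReal_add (by positivity) (by positivity)]
        _ ≤ ENNReal.ofReal (C * N ^ 2 / (Real.log N) ^ K) := by
            refine ENNReal.ofReal_le_ofReal ?_
            have h1 := bci_real K N M hM (by omega) (by omega)
            calc 2 * (C * M ^ 2 / (Real.log M) ^ K) + 2 * (D * M ^ 2 / (Real.log M) ^ K)
                = 2 * (C + D) * ((M : ℝ) ^ 2 / Real.log M ^ K) := by ring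
              _ ≤ 2 * (C + D) * (2 / 5 * ((N : ℝ) ^ 2 / Real.log N ^ K)) :=
                  mul_le_mul_of_nonneg_left h1 (by positivity)
              _ = (4 / 5 * (C + D)) * ((N : ℝ) ^ 2 / Real.log N ^ K) := by ring
              _ ≤ C * ((N : ℝ) ^ 2 / Real.log N ^ K) :=
                  mul_le_mul_of_nonneg_right (by linarith) (by positivity)
              _ = C * N ^ 2 / (Real.log N) ^ K := by ring

/-- the bounded case -/
lemma bci_bdd {Ω : Type} [MeasurableSpace Ω] {m : Measure Ω} [IsFiniteMeasure m] {g : Ω → ℕ → ℂ}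
    (hgm : ∀ n, Measurable fun ω => g ω n) (hg : ∀ ω n, ‖g ω n‖ ≤ 2)
    (hN : ∀ K : ℕ, ∃ C : ℝ, 0 ≤ C ∧ ∀ N : ℕ, 2 ≤ N →
      ∫⁻ ω, ‖∑ n ∈ Icc 1 N, g ω n‖ₑ ^ 2 ∂m ≤ ENNReal.ofReal (C * N ^ 2 / (Real.log N) ^ K)) :
    ∀ᵐ ω ∂m, ∀ K : ℕ, Tendsto (fun N : ℕ => (Real.log N) ^ K / N * ‖∑ n ∈ Icc 1 N, g ω n‖)
      atTop (𝓝 0) := by
  have h1 : ∀ᵐ ω ∂m, ∀ K : ℕ, Summable fun N : ℕ =>
      Real.log N ^ K / (N : ℝ) ^ 3 * ‖∑ n ∈ Finset.Icc 1 N, g ω n‖ ^ 2 := by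
    rw [ae_all_iff]
    intro K
    obtain ⟨C, hC, hC2⟩ := hN (K + 2)
    obtain ⟨F, hF⟩ : ∃ F : ℕ → Ω → ℝ≥0∞, F = fun N ω =>
      ENNReal.ofReal (Real.log ((N + 2 : ℕ) : ℝ) ^ K / ((N + 2 : ℕ) : ℝ) ^ 3) *
        ‖∑ n ∈ Finset.Icc 1 (N + 2), g ω n‖ₑ ^ 2 := ⟨_, rfl⟩
    have hFm : ∀ N, Measurable (F N) := by
      intro N
      rw [hF]
      refine Measurable.const_mul (Measurable.pow_const (Measurable.enorm ?_) 2) _
      exact Finset.measurable_sum _ fun n _ => hgm n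
    have hFi : ∀ N, ∫⁻ ω, F N ω ∂m ≤
        ENNReal.ofReal (C / (((N + 2 : ℕ) : ℝ) * Real.log ((N + 2 : ℕ) : ℝ) ^ 2)) := by
      intro N
      have h2 := hC2 (N + 2) (by omega)
      have hN2 : (2 : ℝ) ≤ ((N + 2 : ℕ) : ℝ) := by
        push_cast
        have : (0 : ℝ) ≤ N := Nat.cast_nonneg N
        linarith
      have hl0 : 0 < Real.log ((N + 2 : ℕ) : ℝ) := Real.log_pos (by linarith)
      rw [hF]
      rw [lintegral_const_mul _ (Measurable.pow_const (Measurable.enorm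
        (Finset.measurable_sum _ fun n _ => hgm n)) 2)]
      refine (mul_le_mul_right h2 _).trans ?_
      rw [← ENNReal.ofReal_mul (by positivity)]
      refine ENNReal.ofReal_le_ofReal (le_of_eq ?_)
      rw [pow_add]
      field_simp
    have hfin : ∫⁻ ω, ∑' N, F N ω ∂m ≠ ⊤ := by
      rw [lintegral_tsum fun N => (hFm N).aemeasurable]
      refine ne_of_lt (lt_of_le_of_lt (ENNReal.tsum_le_tsum hFi) ?_)
      exact (Pool.Agent.Y901.VK.bc_summable C).tsum_ofReal_lt_top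
    have hae := ae_lt_top (Measurable.tsum hFm) hfin
    filter_upwards [hae] with ω hω
    rw [← summable_nat_add_iff 2]
    refine (ENNReal.summable_toReal hω.ne).congr fun N => ?_
    have hl0 : 0 ≤ Real.log ((N + 2 : ℕ) : ℝ) := Real.log_natCast_nonneg _
    rw [hF]
    simp only
    rw [ENNReal.toReal_mul, ENNReal.toReal_pow, toReal_enorm, ENNReal.toReal_ofReal (by positivity)]
  filter_upwards [h1] with ω hω
  intro K
  have h2 := Pool.Agent.Y901.VK.det (fun N => (1 / 2 : ℂ) * ∑ n ∈ Finset.Icc 1 N, g ω n) (fun N => by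
    rw [← mul_sub, Finset.sum_Icc_succ_top (by omega), add_sub_cancel_left, norm_mul]
    have h3 := hg ω (N + 1)
    have h4 : ‖(1 / 2 : ℂ)‖ = 1 / 2 := by norm_num
    rw [h4]
    linarith) (fun K' => by
    refine ((hω K').mul_left (1 / 4)).congr fun N => ?_
    have h4 : ‖(1 / 2 : ℂ)‖ = 1 / 2 := by norm_num
    rw [norm_mul, h4]
    ring) K
  have h3 := h2.const_mul 2
  rw [mul_zero] at h3
  refine h3.congr fun N => ?_
  have h4 : ‖(1 / 2 : ℂ)‖ = 1 / 2 := by norm_num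
  rw [norm_mul, h4]
  ring

theorem bci : Pool.Agent.N798.T.S_BCI := by
  intro Ω _ m _ g N1 hgm hg hyp
  obtain ⟨g', hg'⟩ : ∃ g' : Ω → ℕ → ℂ, g' = fun ω n => if n ≤ N1 then 0 else g ω n := ⟨_, rfl⟩
  have hgm' : ∀ n, Measurable fun ω => g' ω n := by
    intro n
    rw [hg']
    by_cases h : n ≤ N1
    · simp only [if_pos h]
      exact measurable_const
    · simp only [if_neg h]
      exact hgm n
  have hgb : ∀ ω n, ‖g' ω n‖ ≤ 2 := by
    intro ω n
    rw [hg']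
    simp only
    split_ifs with h
    · rw [norm_zero]
      norm_num
    · exact hg ω n (by omega)
  have hmean : ∀ K : ℕ, ∃ C : ℝ, 0 ≤ C ∧ ∀ N : ℕ, 2 ≤ N →
      ∫⁻ ω, ‖∑ n ∈ Icc 1 N, g' ω n‖ₑ ^ 2 ∂m ≤ ENNReal.ofReal (C * N ^ 2 / (Real.log N) ^ K) := by
    intro K
    obtain ⟨D, N0, hD, hN0, hN⟩ := hyp K
    refine bci_mean hgm' hgb K (D := D) (N0 := N0 + N1) hD fun N N' h1 h2 h3 => ?_
    have h4 : ∀ ω, ∑ n ∈ Ioc N N', g' ω n = ∑ n ∈ Ioc N N', g ω n := by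
      intro ω
      refine sum_congr rfl fun n hn => ?_
      rw [mem_Ioc] at hn
      rw [hg']
      simp only
      rw [if_neg (by omega)]
    simp only [h4]
    exact hN N N' (by omega) h2 h3
  filter_upwards [bci_bdd hgm' hgb hmean] with ω hω
  intro K
  obtain ⟨c, hc⟩ : ∃ c : ℝ, c = ∑ n ∈ Icc 1 N1, ‖g ω n‖ := ⟨_, rfl⟩
  have hlim : Tendsto (fun N : ℕ => Real.log (N : ℝ) ^ K / N) atTop (𝓝 0) := by
    have h1 : Tendsto (fun x : ℝ => Real.log x ^ K / x) atTop (𝓝 0) := by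
      have h2 := (Real.isLittleO_pow_log_id_atTop (n := K)).tendsto_div_nhds_zero
      exact h2
    exact h1.comp tendsto_natCast_atTop_atTop
  have hsum := (hω K).add (hlim.mul_const c)
  rw [zero_add, zero_mul] at hsum
  refine squeeze_zero (fun N => ?_) (fun N => ?_) hsum
  · have h9 : 0 ≤ Real.log (N : ℝ) := Real.log_natCast_nonneg _
    positivity
  · have h9 : 0 ≤ Real.log (N : ℝ) := Real.log_natCast_nonneg _
    have h1 : ‖∑ n ∈ Icc 1 N, g ω n‖ ≤ ‖∑ n ∈ Icc 1 N, g' ω n‖ + c := by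
      have h2 : ∑ n ∈ Icc 1 N, g ω n = ∑ n ∈ Icc 1 N, g' ω n +
          ∑ n ∈ (Icc 1 N).filter (fun n => n ≤ N1), g ω n := by
        rw [sum_filter, ← sum_add_distrib]
        refine sum_congr rfl fun n _ => ?_
        rw [hg']
        simp only
        split_ifs
        · rw [zero_add]
        · rw [add_zero]
      rw [h2]
      refine (norm_add_le _ _).trans (add_le_add le_rfl ?_)
      refine (norm_sum_le _ _).trans ?_
      rw [hc]
      refine sum_le_sum_of_subset_of_nonneg ?_ fun n _ _ => norm_nonneg _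
      intro n hn
      obtain ⟨hn1, hn2⟩ := mem_filter.1 hn
      rw [mem_Icc] at hn1 ⊢
      exact ⟨hn1.1, hn2⟩
    calc Real.log N ^ K / N * ‖∑ n ∈ Icc 1 N, g ω n‖
        ≤ Real.log N ^ K / N * (‖∑ n ∈ Icc 1 N, g' ω n‖ + c) :=
          mul_le_mul_of_nonneg_left h1 (by positivity)
      _ = Real.log N ^ K / N * ‖∑ n ∈ Icc 1 N, g' ω n‖ + Real.log N ^ K / N * c := by ring

end Pool.Agent.N364.T
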